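import Mathlib

/-!
Two-dimensional U-bootstrap percolation (update families), problem MP_28b826_pr, question Q2.
Definitions and exact statements of the parts (Props `S_*`).
-/

set_option autoImplicit false

open MeasureTheory Set

namespace Pool.Agent.W829.UB

/-- Sites of the square lattice. -/
abbrev Site := ℤ × ℤ

/-- An update family: a finite nonempty collection of finite subsets of the lattice without the origin. -/
def IsUpdateFamily (U : Finset (Finset Site)) : Prop :=
  U.Nonempty ∧ ∀ X ∈ U, (0 : Site) ∉ X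

/-- One step of the process: a site becomes infected when some translated rule is infected. -/
def step (U : Finset (Finset Site)) (A : Set Site) : Set Site :=
  A ∪ {x | ∃ X ∈ U, ∀ y ∈ X, x + y ∈ A}

/-- The infected set at time `t`, started from `A`. -/
def infected (U : Finset (Finset Site)) (A : Set Site) : ℕ → Set Site
  | 0 => A
  | t + 1 => step U (infected U A t)

/-- The closure: all sites infected at some time. -/
def closure (U : Finset (Finset Site)) (A : Set Site) : Set Site := ⋃ t, infected U A t

/-- The open half plane of the sites `x` with `⟨x, (cos θ, sin θ)⟩ < 0`. -/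
def halfPlane (θ : ℝ) : Set Site :=
  {x | (x.1 : ℝ) * Real.cos θ + (x.2 : ℝ) * Real.sin θ < 0}

/-- The direction of angle `θ` is stable. -/
def Stable (U : Finset (Finset Site)) (θ : ℝ) : Prop :=
  closure U (halfPlane θ) = halfPlane θ

/-- The family is subcritical: the stable set meets every open semicircle in positive arc length. -/
def Subcritical (U : Finset (Finset Site)) : Prop :=
  ∀ φ : ℝ, 0 < volume ({θ : ℝ | Stable U θ} ∩ Ioo φ (φ + Real.pi))

/-- The Bernoulli law on `Bool` with parameter `p`. -/
noncomputable def bern (p : unitInterval) : Measure Bool :=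
  ENNReal.ofReal p • Measure.dirac true + ENNReal.ofReal (1 - p) • Measure.dirac false

instance (p : unitInterval) : IsProbabilityMeasure (bern p) := by
  constructor
  have h0 : (0 : ℝ) ≤ p := p.2.1
  have h1 : (0 : ℝ) ≤ 1 - p := by linarith [p.2.2]
  simp only [bern, Measure.add_apply, Measure.smul_apply, measure_univ, smul_eq_mul, mul_one]
  rw [← ENNReal.ofReal_add h0 h1]
  simp

/-- The law of the random initial configuration. -/
noncomputable def Perc (p : unitInterval) : Measure (Site → Bool) :=
  Measure.infinitePi (fun _ : Site => bern p)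

instance (p : unitInterval) : IsProbabilityMeasure (Perc p) := by
  unfold Perc; infer_instance

/-- The set of initially infected sites. -/
def init (ω : Site → Bool) : Set Site := {x | ω x = true}

/-- Percolation at `p`: almost surely every site becomes infected. -/
def Percolates (U : Finset (Finset Site)) (p : unitInterval) : Prop :=
  Perc p {ω | closure U (init ω) = univ} = 1

/-- The critical probability. -/
noncomputable def pc (U : Finset (Finset Site)) : ℝ :=
  sInf {p : ℝ | ∃ h : p ∈ unitInterval, Percolates U ⟨p, h⟩}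

/-- The occupation time of the origin (infinite when the origin is never infected). -/
noncomputable def time (U : Finset (Finset Site)) (A : Set Site) : ENNReal :=
  ⨅ t : ℕ, ⨅ _ : (0 : Site) ∈ infected U A t, (t : ENNReal)

/-- The rule `X` seen in the real plane. -/
def real (X : Finset Site) : Set (ℝ × ℝ) := (fun y : Site => ((y.1 : ℝ), (y.2 : ℝ))) '' (X : Set Site)

/-- The event that the site `x` is not infected at time `n`. -/
def late (U : Finset (Finset Site)) (n : ℕ) (x : Site) : Set (Site → Bool) :=
  {ω | x ∉ infected U (init ω) n}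

/-! ### The parts -/

/-- Range `ρ`: the state of `x` at time `n` depends only on the box of radius `ρ n` around `x`. -/
def Range (U : Finset (Finset Site)) (ρ : ℕ) : Prop :=
  ∀ (n : ℕ) (x : Site) (A B : Set Site),
    (∀ z : Site, |z.1 - x.1| ≤ ρ * n → |z.2 - x.2| ≤ ρ * n → (z ∈ A ↔ z ∈ B)) →
    (x ∈ infected U A n ↔ x ∈ infected U B n)

def S_LOC : Prop := ∀ U : Finset (Finset Site), ∃ ρ : ℕ, Range U ρ

def S_PATH : Prop := ∀ U : Finset (Finset Site),
  (∀ X ∈ U, X.Nonempty) → (∃ X ∈ U, (0 : ℝ × ℝ) ∉ convexHull ℝ (real X)) →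
  ∀ ρ : ℕ, ∃ C M : ℕ, 2 ≤ M ∧ ∀ n : ℕ, 1 ≤ n → ∃ S : Finset Site, S.card ≤ C * n ∧
    (∀ x ∈ S, 2 * (ρ : ℤ) * n < max |x.1| |x.2|) ∧
    ∀ A : Set Site, (0 : Site) ∉ infected U A (M * n) → ∃ x ∈ S, x ∉ infected U A n

def S_IND : Prop := ∀ (U : Finset (Finset Site)) (ρ : ℕ), Range U ρ →
  ∀ (p : unitInterval) (n : ℕ) (x : Site), 2 * (ρ : ℤ) * n < max |x.1| |x.2| →
    Perc p (late U n 0 ∩ late U n x) = Perc p (late U n 0) ^ 2

def S_SHIFT : Prop := ∀ (U : Finset (Finset Site)) (p : unitInterval) (n : ℕ) (x : Site),
  Perc p (late U n x) = Perc p (late U n 0)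

def S_MEAS : Prop := ∀ (U : Finset (Finset Site)) (n : ℕ) (x : Site), MeasurableSet (late U n x)

def S_CONT : Prop := ∀ (U : Finset (Finset Site)) (ρ : ℕ), Range U ρ → ∀ n : ℕ,
  Continuous (fun p : unitInterval => (Perc p (late U n 0)).toReal)

def S_ZON : Prop := ∀ U : Finset (Finset Site), (∀ X ∈ U, (0 : Site) ∉ X) →
  (∀ X ∈ U, (0 : ℝ × ℝ) ∈ convexHull ℝ (real X)) →
  ∃ K : Finset Site, (0 : Site) ∈ K ∧ ∀ A : Set Site, (∀ x ∈ K, x ∉ A) →
    ∀ n : ℕ, ∀ x ∈ K, x ∉ infected U A n

def S_SUB : Prop := ∀ U : Finset (Finset Site), Subcritical U → ∀ X ∈ U, X.Nonempty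

end Pool.Agent.W829.UB
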