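import Pool.Agent.W829.UB.Defs

set_option autoImplicit false

open MeasureTheory Set Filter Topology

namespace Pool.Agent.W829.UB

theorem infected_succ (U : Finset (Finset Site)) (A : Set Site) (n : ℕ) :
    infected U A n ⊆ infected U A (n + 1) := by
  intro x hx
  exact Or.inl hx

theorem infected_mono (U : Finset (Finset Site)) (A : Set Site) {n m : ℕ} (h : n ≤ m) :
    infected U A n ⊆ infected U A m := by
  induction m, h using Nat.le_induction with
  | base => exact subset_rfl
  | succ k _ ih => exact ih.trans (infected_succ U A k)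

theorem late_anti (U : Finset (Finset Site)) {n m : ℕ} (h : n ≤ m) (x : Site) :
    late U m x ⊆ late U n x := by
  intro ω hω hx
  exact hω (infected_mono U _ h hx)

theorem recursion (hPATH : S_PATH) (hIND : S_IND) (hLOC : S_LOC)
    (U : Finset (Finset Site)) (hne : ∀ X ∈ U, X.Nonempty)
    (hX : ∃ X ∈ U, (0 : ℝ × ℝ) ∉ convexHull ℝ (real X)) :
    ∃ C M : ℕ, 1 ≤ C ∧ 2 ≤ M ∧ ∀ (p : unitInterval) (n : ℕ), 1 ≤ n →
      (Perc p (late U (M * n) 0)).toReal ≤ C * n * (Perc p (late U n 0)).toReal ^ 2 := by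
  obtain ⟨ρ, hρ⟩ := hLOC U
  obtain ⟨C, M, hM, h⟩ := hPATH U hne hX ρ
  refine ⟨C + 1, M, by omega, hM, ?_⟩
  intro p n hn
  obtain ⟨S, hS, hfar, hp⟩ := h n hn
  have h1 : late U (M * n) 0 ⊆ ⋃ x ∈ S, (late U n 0 ∩ late U n x) := by
    intro ω hω
    obtain ⟨x, hx, hx2⟩ := hp (init ω) hω
    simp only [mem_iUnion]
    refine ⟨x, hx, ?_, hx2⟩
    exact late_anti U (by nlinarith) 0 hω
  have h2 : Perc p (late U (M * n) 0) ≤ ∑ x ∈ S, Perc p (late U n 0) ^ 2 := by
    refine (measure_mono h1).trans ((measure_biUnion_finset_le _ _).trans ?_)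
    exact Finset.sum_le_sum fun x hx => (hIND U ρ hρ p n x (hfar x hx)).le
  have h3 : Perc p (late U (M * n) 0) ≤ ((S.card : ENNReal)) * Perc p (late U n 0) ^ 2 := by
    simpa [Finset.sum_const, nsmul_eq_mul] using h2
  have h4 : (Perc p (late U (M * n) 0)).toReal ≤ (S.card : ℝ) * (Perc p (late U n 0)).toReal ^ 2 := by
    have h5 := ENNReal.toReal_mono
      (ENNReal.mul_ne_top (ENNReal.natCast_ne_top _) (ENNReal.pow_ne_top (measure_ne_top _ _))) h3
    simpa [ENNReal.toReal_mul, ENNReal.toReal_pow] using h5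
  refine h4.trans (mul_le_mul_of_nonneg_right ?_ (by positivity))
  have : (S.card : ℝ) ≤ C * n := by exact_mod_cast hS
  push_cast
  nlinarith [(Nat.cast_nonneg n : (0:ℝ) ≤ n)]

theorem perc_of_ae (U : Finset (Finset Site)) (p : unitInterval)
    (h : ∀ x : Site, Perc p (⋂ n, late U n x) = 0) : Percolates U p := by
  have h1 : ∀ᵐ ω ∂(Perc p), ∀ x : Site, ω ∉ ⋂ n, late U n x := by
    rw [ae_all_iff]
    intro x
    rw [ae_iff]
    have h9 : {ω : Site → Bool | ¬ ω ∉ ⋂ n, late U n x} = ⋂ n, late U n x := by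
      ext ω
      simp only [mem_ofPred_eq, not_not]
    rw [h9]
    exact h x
  have h2 : ∀ᵐ ω ∂(Perc p), closure U (init ω) = univ := by
    filter_upwards [h1] with ω hω
    rw [eq_univ_iff_forall]
    intro x
    have := hω x
    simp only [late, mem_iInter, mem_ofPred_eq, not_forall, not_not] at this
    exact mem_iUnion.2 this
  have h3 : ({ω | closure U (init ω) = univ} : Set (Site → Bool)) =ᵐ[Perc p] univ :=
    eventuallyEq_univ.2 h2
  unfold Percolates
  rw [measure_congr h3, measure_univ]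

theorem criterion (hSHIFT : S_SHIFT) (U : Finset (Finset Site)) (C M : ℕ) (hC : 1 ≤ C) (hM : 2 ≤ M)
    (p : unitInterval)
    (h : ∀ n : ℕ, 1 ≤ n →
      (Perc p (late U (M * n) 0)).toReal ≤ C * n * (Perc p (late U n 0)).toReal ^ 2)
    (n : ℕ) (hn : 1 ≤ n) (hb : C * M * n * (Perc p (late U n 0)).toReal < 1) :
    Percolates U p := by
  set t : ℕ → ℝ := fun k => (Perc p (late U k 0)).toReal with ht
  have ht0 : ∀ k, 0 ≤ t k := fun k => ENNReal.toReal_nonneg
  set b : ℕ → ℝ := fun k => C * M * k * t k with hbdef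
  have hb0 : ∀ k, 0 ≤ b k := fun k => by have := ht0 k; positivity
  have hCr : (1 : ℝ) ≤ C := by exact_mod_cast hC
  have hMr : (2 : ℝ) ≤ M := by exact_mod_cast hM
  have hstep : ∀ k, 1 ≤ k → b (M * k) ≤ b k ^ 2 := by
    intro k hk
    have h1 := h k hk
    have : b (M * k) = C * M * M * k * t (M * k) := by
      simp only [hbdef]; push_cast; ring
    rw [this]
    have h2 : (C : ℝ) * M * M * k * t (M * k) ≤ C * M * M * k * (C * k * t k ^ 2) :=
      mul_le_mul_of_nonneg_left h1 (by positivity)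
    refine h2.trans (le_of_eq ?_)
    simp only [hbdef]; ring
  have hiter : ∀ k : ℕ, b (M ^ k * n) ≤ b n ^ (2 ^ k) := by
    intro k
    induction k with
    | zero => simp
    | succ k ih =>
      have e : M ^ (k + 1) * n = M * (M ^ k * n) := by ring
      rw [e]
      have hpos : 1 ≤ M ^ k * n := Nat.one_le_iff_ne_zero.2
        (Nat.mul_ne_zero (pow_ne_zero _ (by omega)) (by omega))
      refine (hstep _ hpos).trans ?_
      rw [pow_succ 2 k, pow_mul]
      exact pow_le_pow_left₀ (hb0 _) ih 2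
  have hbn : b n < 1 := hb
  have hle : ∀ k : ℕ, t (M ^ k * n) ≤ b n ^ (2 ^ k) := by
    intro k
    refine le_trans ?_ (hiter k)
    have hpos : 1 ≤ M ^ k * n := Nat.one_le_iff_ne_zero.2
      (Nat.mul_ne_zero (pow_ne_zero _ (by omega)) (by omega))
    have hposr : (1 : ℝ) ≤ ((M ^ k * n : ℕ) : ℝ) := by exact_mod_cast hpos
    have h1 : (1 : ℝ) ≤ C * M * ((M ^ k * n : ℕ) : ℝ) := by
      have : (1 : ℝ) ≤ C * M := by nlinarith
      nlinarith
    calc t (M ^ k * n) = 1 * t (M ^ k * n) := (one_mul _).symm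
      _ ≤ C * M * ((M ^ k * n : ℕ) : ℝ) * t (M ^ k * n) := mul_le_mul_of_nonneg_right h1 (ht0 _)
  have hlim : Tendsto (fun k : ℕ => b n ^ (2 ^ k)) atTop (𝓝 0) :=
    (tendsto_pow_atTop_nhds_zero_of_lt_one (hb0 n) hbn).comp
      (tendsto_pow_atTop_atTop_of_one_lt (by norm_num))
  have hzero : Perc p (⋂ m, late U m 0) = 0 := by
    have h1 : ∀ k : ℕ, (Perc p (⋂ m, late U m 0)).toReal ≤ b n ^ (2 ^ k) := by
      intro k
      refine le_trans ?_ (hle k)
      exact ENNReal.toReal_mono (measure_ne_top _ _) (measure_mono (iInter_subset _ _))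
    have h2 : (Perc p (⋂ m, late U m 0)).toReal ≤ 0 := ge_of_tendsto' hlim h1
    have h3 : (Perc p (⋂ m, late U m 0)).toReal = 0 := le_antisymm h2 ENNReal.toReal_nonneg
    rcases (ENNReal.toReal_eq_zero_iff _).1 h3 with h4 | h4
    · exact h4
    · exact absurd h4 (measure_ne_top _ _)
  apply perc_of_ae
  intro x
  have h1 : ∀ k : ℕ, (Perc p (⋂ m, late U m x)).toReal ≤ b n ^ (2 ^ k) := by
    intro k
    refine le_trans ?_ (hle k)
    have h2 : Perc p (⋂ m, late U m x) ≤ Perc p (late U (M ^ k * n) x) :=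
      measure_mono (iInter_subset _ _)
    rw [hSHIFT U p (M ^ k * n) x] at h2
    exact ENNReal.toReal_mono (measure_ne_top _ _) h2
  have h2 : (Perc p (⋂ m, late U m x)).toReal ≤ 0 := ge_of_tendsto' hlim h1
  have h3 : (Perc p (⋂ m, late U m x)).toReal = 0 := le_antisymm h2 ENNReal.toReal_nonneg
  rcases (ENNReal.toReal_eq_zero_iff _).1 h3 with h4 | h4
  · exact h4
  · exact absurd h4 (measure_ne_top _ _)

theorem perc_coord (p : unitInterval) (x : Site) (c : Bool) :
    Perc p {ω | ω x = c} = bern p {c} := by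
  have h := Measure.infinitePi_map_eval (μ := fun _ : Site => bern p) x
  have h2 : (Perc p).map (fun ω : Site → Bool => ω x) {c} = bern p {c} := by
    exact congrArg (fun μ : Measure Bool => μ {c}) h
  rw [← h2, Measure.map_apply (measurable_pi_apply x) (measurableSet_singleton c)]
  rfl

theorem bern_false (p : unitInterval) : bern p {false} = ENNReal.ofReal (1 - p) := by
  simp [bern]

theorem bern_true (p : unitInterval) : bern p {true} = ENNReal.ofReal p := by
  simp [bern]

theorem late_zero (U : Finset (Finset Site)) (x : Site) : late U 0 x = {ω | ω x = false} := by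
  ext ω
  simp [late, infected, init]

theorem late_zero_meas (U : Finset (Finset Site)) (p : unitInterval) (x : Site) :
    Perc p (late U 0 x) = ENNReal.ofReal (1 - p) := by
  rw [late_zero, perc_coord, bern_false]

theorem perc_one (U : Finset (Finset Site)) : Percolates U 1 := by
  apply perc_of_ae
  intro x
  refine measure_mono_null (iInter_subset _ 0) ?_
  rw [late_zero_meas]
  simp

theorem pc_mem (U : Finset (Finset Site)) : pc U ∈ unitInterval := by
  have h1 : (1 : ℝ) ∈ {p : ℝ | ∃ h : p ∈ unitInterval, Percolates U ⟨p, h⟩} :=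
    ⟨⟨zero_le_one, le_rfl⟩, perc_one U⟩
  constructor
  · apply Real.sInf_nonneg
    rintro p ⟨h, _⟩
    exact h.1
  · exact csInf_le ⟨0, by rintro p ⟨h, _⟩; exact h.1⟩ h1

theorem pc_le (U : Finset (Finset Site)) (p : unitInterval) (h : Percolates U p) : pc U ≤ p :=
  csInf_le ⟨0, by rintro p ⟨h, _⟩; exact h.1⟩ ⟨p.2, h⟩

/-- Partial sums of the indicators of the late events are at most the occupation time. -/
theorem sum_le_time (U : Finset (Finset Site)) (ω : Site → Bool) (N : ℕ) :
    ∑ k ∈ Finset.range N, (late U k 0).indicator (fun _ => (1 : ENNReal)) ω ≤ time U (init ω) := by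
  refine le_iInf₂ fun t ht => ?_
  have h1 : ∀ k ∈ Finset.range N, (late U k 0).indicator (fun _ => (1 : ENNReal)) ω ≤
      if k < t then 1 else 0 := by
    intro k _
    by_cases hk : k < t
    · simp only [hk, if_true]
      exact indicator_le_self' (fun _ _ => zero_le) ω
    · simp only [hk, if_false, nonpos_iff_eq_zero, indicator_apply_eq_zero]
      intro hω
      exact absurd (infected_mono U _ (not_lt.1 hk) ht) hω
  refine (Finset.sum_le_sum h1).trans ?_
  rw [← Finset.sum_filter, Finset.sum_const, nsmul_eq_mul, mul_one]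
  have : (Finset.filter (fun k => k < t) (Finset.range N)).card ≤ t := by
    have : Finset.filter (fun k => k < t) (Finset.range N) ⊆ Finset.range t := by
      intro k hk
      simp only [Finset.mem_filter, Finset.mem_range] at hk ⊢
      exact hk.2
    simpa using Finset.card_le_card this
  exact_mod_cast this

theorem sum_meas_le (hMEAS : S_MEAS) (U : Finset (Finset Site)) (p : unitInterval) (N : ℕ) :
    ∑ k ∈ Finset.range N, Perc p (late U k 0) ≤ ∫⁻ ω, time U (init ω) ∂(Perc p) := by
  have h1 : ∑ k ∈ Finset.range N, Perc p (late U k 0) =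
      ∫⁻ ω, ∑ k ∈ Finset.range N, (late U k 0).indicator (fun _ => (1 : ENNReal)) ω ∂(Perc p) := by
    rw [lintegral_finsetSum]
    · refine Finset.sum_congr rfl fun k _ => ?_
      rw [lintegral_indicator (hMEAS U k 0)]
      simp
    · intro k _
      exact measurable_const.indicator (hMEAS U k 0)
  rw [h1]
  exact lintegral_mono fun ω => sum_le_time U ω N

theorem lintegral_top (hMEAS : S_MEAS) (U : Finset (Finset Site)) (p : unitInterval) (K : ℝ)
    (hK : 0 < K) (h : ∀ n : ℕ, 1 ≤ n → 1 ≤ K * n * (Perc p (late U n 0)).toReal) :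
    ∫⁻ ω, time U (init ω) ∂(Perc p) = ⊤ := by
  by_contra hne
  set E := ∫⁻ ω, time U (init ω) ∂(Perc p) with hE
  have h1 : ∀ N : ℕ, ∑ k ∈ Finset.range N, (1 : ℝ) / (k + 1) ≤ K * E.toReal := by
    intro N
    have h2 : ∑ k ∈ Finset.range (N + 1), (Perc p (late U k 0)).toReal ≤ E.toReal := by
      rw [← ENNReal.toReal_sum (fun k _ => measure_ne_top _ _)]
      exact ENNReal.toReal_mono hne (sum_meas_le hMEAS U p (N + 1))
    have h3 : ∑ k ∈ Finset.range N, (1 : ℝ) / (k + 1) ≤
        ∑ k ∈ Finset.range N, K * (Perc p (late U (k + 1) 0)).toReal := by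
      refine Finset.sum_le_sum fun k _ => ?_
      have h4 := h (k + 1) (by omega)
      push_cast at h4
      rw [div_le_iff₀ (by positivity)]
      linarith
    rw [← Finset.mul_sum] at h3
    refine h3.trans (mul_le_mul_of_nonneg_left ?_ hK.le)
    refine le_trans ?_ h2
    rw [Finset.sum_range_succ' _ N]
    have : 0 ≤ (Perc p (late U 0 0)).toReal := ENNReal.toReal_nonneg
    linarith
  have h2 := Real.tendsto_sum_range_one_div_nat_succ_atTop
  obtain ⟨N, hN⟩ := (h2.eventually (eventually_gt_atTop (K * E.toReal))).exists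
  exact absurd (h1 N) (not_le.2 hN)

/-- At `p = 0` nothing is ever infected. -/
theorem late_at_zero (U : Finset (Finset Site)) (hne : ∀ X ∈ U, X.Nonempty) (n : ℕ) :
    Perc 0 (late U n 0) = 1 := by
  have h1 : ∀ᵐ ω ∂(Perc 0), ∀ x : Site, ω x = false := by
    rw [ae_all_iff]
    intro x
    rw [ae_iff]
    have : {ω : Site → Bool | ¬ ω x = false} = {ω | ω x = true} := by
      ext ω; simp
    rw [this, perc_coord, bern_true]
    simp
  have h2 : ∀ᵐ ω ∂(Perc 0), ω ∈ late U n 0 := by
    filter_upwards [h1] with ω hω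
    have h3 : ∀ m : ℕ, infected U (init ω) m = ∅ := by
      intro m
      induction m with
      | zero =>
        simp only [infected, init]
        ext x
        simp [hω x]
      | succ m ih =>
        simp only [infected, step, ih]
        ext x
        simp only [mem_empty_iff_false, mem_union, mem_ofPred_eq, false_or, iff_false, not_exists,
          not_and, not_forall]
        intro X hX
        obtain ⟨y, hy⟩ := hne X hX
        exact ⟨y, hy, fun h => h⟩
    simp only [late, mem_ofPred_eq, h3 n, mem_empty_iff_false, not_false_iff]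
  have h3 : (late U n 0) =ᵐ[Perc 0] univ := eventuallyEq_univ.2 h2
  rw [measure_congr h3, measure_univ]

theorem main_good (hPATH : S_PATH) (hIND : S_IND) (hLOC : S_LOC) (hSHIFT : S_SHIFT)
    (hMEAS : S_MEAS) (hCONT : S_CONT)
    (U : Finset (Finset Site)) (hne : ∀ X ∈ U, X.Nonempty)
    (hX : ∃ X ∈ U, (0 : ℝ × ℝ) ∉ convexHull ℝ (real X)) :
    pc U < 1 ∧ (∃ c : ℝ, 0 < c ∧ ∀ n : ℕ, 1 ≤ n →
      c / n ≤ (Perc ⟨pc U, pc_mem U⟩ {ω | (0 : Site) ∉ infected U (init ω) n}).toReal) ∧
      ∫⁻ ω, time U (init ω) ∂(Perc ⟨pc U, pc_mem U⟩) = ⊤ := by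
  obtain ⟨C, M, hC, hM, h⟩ := recursion hPATH hIND hLOC U hne hX
  have hCr : (1 : ℝ) ≤ C := by exact_mod_cast hC
  have hMr : (2 : ℝ) ≤ M := by exact_mod_cast hM
  have hKpos : (0 : ℝ) < C * M := by positivity
  constructor
  · -- percolation close to one
    set p : ℝ := 1 - 1 / (2 * (C * M)) with hp
    have hK2 : (2 : ℝ) ≤ C * M := by nlinarith
    have hpI : p ∈ unitInterval := by
      constructor
      · rw [hp, sub_nonneg, div_le_one (by positivity)]; linarith
      · rw [hp]; have : 0 < 1 / (2 * ((C : ℝ) * M)) := by positivity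
        linarith
    have hperc : Percolates U ⟨p, hpI⟩ := by
      apply criterion hSHIFT U C M hC hM ⟨p, hpI⟩ (h ⟨p, hpI⟩) 1 le_rfl
      have h1 : (Perc ⟨p, hpI⟩ (late U 1 0)).toReal ≤ 1 - p := by
        have h2 : Perc ⟨p, hpI⟩ (late U 1 0) ≤ ENNReal.ofReal (1 - p) := by
          refine (measure_mono (late_anti U (Nat.zero_le 1) 0)).trans ?_
          rw [late_zero_meas]
        have h3 := ENNReal.toReal_mono ENNReal.ofReal_ne_top h2
        rwa [ENNReal.toReal_ofReal (by linarith [hpI.2])] at h3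
      have h2 : 1 - p = 1 / (2 * (C * M)) := by rw [hp]; ring
      rw [h2] at h1
      have h3 : (C : ℝ) * M * ((1 : ℕ) : ℝ) * (Perc ⟨p, hpI⟩ (late U 1 0)).toReal ≤
          C * M * ((1 : ℕ) : ℝ) * (1 / (2 * (C * M))) :=
        mul_le_mul_of_nonneg_left h1 (by positivity)
      refine lt_of_le_of_lt h3 ?_
      have : (C : ℝ) * M * ((1 : ℕ) : ℝ) * (1 / (2 * (C * M))) = 1 / 2 := by
        push_cast; field_simp
      rw [this]; norm_num
    refine lt_of_le_of_lt (pc_le U _ hperc) ?_
    show p < 1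
    have : 0 < 1 / (2 * ((C : ℝ) * M)) := by positivity
    rw [hp]; linarith
  · set q : unitInterval := ⟨pc U, pc_mem U⟩ with hq
    by_cases hex : ∃ n : ℕ, 1 ≤ n ∧ C * M * n * (Perc q (late U n 0)).toReal < 1
    · exfalso
      obtain ⟨n, hn, hb⟩ := hex
      obtain ⟨ρ, hρ⟩ := hLOC U
      have hcont := hCONT U ρ hρ n
      have hopen : IsOpen {p : unitInterval | C * M * n * (Perc p (late U n 0)).toReal < 1} :=
        isOpen_lt (continuous_const.mul hcont) continuous_const
      have hmem : q ∈ {p : unitInterval | C * M * n * (Perc p (late U n 0)).toReal < 1} := hb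
      rcases eq_or_lt_of_le (pc_mem U).1 with h0 | h0
      · -- pc = 0
        have hq0 : q = 0 := by
          apply Subtype.ext
          show pc U = 0
          exact h0.symm
        rw [hq0, late_at_zero U hne n] at hb
        have hnr : (1 : ℝ) ≤ n := by exact_mod_cast hn
        simp only [ENNReal.toReal_one, mul_one] at hb
        nlinarith
      · obtain ⟨ε, hε, hball⟩ := Metric.isOpen_iff.1 hopen q hmem
        -- a smaller parameter
        set r : ℝ := max 0 (pc U - ε / 2) with hr
        have hr1 : r < pc U := max_lt h0 (by linarith)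
        have hrI : r ∈ unitInterval := ⟨le_max_left _ _, (hr1.trans_le (pc_mem U).2).le⟩
        have hdist : dist (⟨r, hrI⟩ : unitInterval) q < ε := by
          rw [Subtype.dist_eq, Real.dist_eq]
          show |r - pc U| < ε
          rw [abs_sub_comm, abs_of_pos (by linarith)]
          have : pc U - ε / 2 ≤ r := le_max_right _ _
          linarith
        have h1 := hball hdist
        have hperc := criterion hSHIFT U C M hC hM ⟨r, hrI⟩ (h ⟨r, hrI⟩) n hn h1
        exact absurd (pc_le U _ hperc) (not_le.2 hr1)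
    · push Not at hex
      refine ⟨⟨1 / (C * M), by positivity, fun n hn => ?_⟩, lintegral_top hMEAS U q (C * M) hKpos hex⟩
      have h1 := hex n hn
      have hnr : (0 : ℝ) < n := by exact_mod_cast hn
      rw [div_div, div_le_iff₀ (by positivity)]
      show 1 ≤ (Perc q (late U n 0)).toReal * (C * M * n)
      linarith

theorem main_bad (hZON : S_ZON) (U : Finset (Finset Site)) (h0 : ∀ X ∈ U, (0 : Site) ∉ X)
    (hX : ∀ X ∈ U, (0 : ℝ × ℝ) ∈ convexHull ℝ (real X)) :
    pc U = 1 ∧ ∫⁻ ω, time U (init ω) ∂(Perc ⟨pc U, pc_mem U⟩) = 0 := by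
  obtain ⟨K, hK0, hK⟩ := hZON U h0 hX
  have hpc : pc U = 1 := by
    refine le_antisymm (pc_mem U).2 ?_
    have hne : ({p : ℝ | ∃ h : p ∈ unitInterval, Percolates U ⟨p, h⟩}).Nonempty :=
      ⟨1, ⟨zero_le_one, le_rfl⟩, perc_one U⟩
    refine le_csInf hne ?_
    rintro p ⟨hp, hperc⟩
    by_contra hlt
    push Not at hlt
    -- K healthy has positive probability
    have hpos : 0 < Perc ⟨p, hp⟩ (Set.pi (K : Set Site) (fun _ => ({false} : Set Bool))) := by
      unfold Perc
      rw [Measure.infinitePi_pi _ (fun x _ => measurableSet_singleton _)]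
      rw [CanonicallyOrderedAdd.prod_pos]
      intro x _
      rw [bern_false]
      exact ENNReal.ofReal_pos.2 (by show 0 < 1 - p; linarith)
    have hsub : Set.pi (K : Set Site) (fun _ => ({false} : Set Bool)) ⊆
        {ω | closure U (init ω) = univ}ᶜ := by
      intro ω hω hcl
      have h1 : (0 : Site) ∈ closure U (init ω) := by
        rw [show closure U (init ω) = univ from hcl]; exact mem_univ _
      obtain ⟨n, hn⟩ := mem_iUnion.1 h1
      refine hK (init ω) ?_ n 0 hK0 hn
      intro x hx hxi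
      have h2 : ω x = false := hω x hx
      have h3 : ω x = true := hxi
      rw [h2] at h3
      exact Bool.noConfusion h3
    have h1 : Perc ⟨p, hp⟩ ({ω | closure U (init ω) = univ} ∪
        Set.pi (K : Set Site) (fun _ => ({false} : Set Bool))) =
        Perc ⟨p, hp⟩ {ω | closure U (init ω) = univ} +
        Perc ⟨p, hp⟩ (Set.pi (K : Set Site) (fun _ => ({false} : Set Bool))) := by
      apply measure_union
      · exact disjoint_left.2 fun ω h1 h2 => hsub h2 h1
      · exact MeasurableSet.pi (Finset.countable_toSet K) (fun _ _ => measurableSet_singleton _)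
    have h2 : Perc ⟨p, hp⟩ ({ω | closure U (init ω) = univ} ∪
        Set.pi (K : Set Site) (fun _ => ({false} : Set Bool))) ≤ 1 := prob_le_one
    rw [h1, show Perc ⟨p, hp⟩ {ω | closure U (init ω) = univ} = 1 from hperc] at h2
    have h3 : (1 : ENNReal) < 1 + Perc ⟨p, hp⟩ (Set.pi (K : Set Site) (fun _ => ({false} : Set Bool))) :=
      ENNReal.lt_add_right ENNReal.one_ne_top hpos.ne'
    exact absurd h2 (not_le.2 h3)
  refine ⟨hpc, ?_⟩
  have hq : (⟨pc U, pc_mem U⟩ : unitInterval) = 1 := Subtype.ext hpc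
  rw [hq]
  have h1 : ∀ᵐ ω ∂(Perc 1), ω ∉ late U 0 0 := by
    rw [ae_iff]
    have : {ω : Site → Bool | ¬ ω ∉ late U 0 0} = late U 0 0 := by ext ω; simp
    rw [this, late_zero_meas]
    simp
  rw [lintegral_congr_ae (g := fun _ => 0)]
  · simp
  · filter_upwards [h1] with ω hω
    simp only [late, mem_ofPred_eq, not_not] at hω
    have h2 : time U (init ω) ≤ ((0 : ℕ) : ENNReal) := by
      unfold time
      exact iInf₂_le (f := fun (t : ℕ) (_ : (0 : Site) ∈ infected U (init ω) t) => (t : ENNReal)) 0 hω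
    simpa using h2

/-- Assembly of the final statement from the parts. -/
theorem main_fin (hPATH : S_PATH) (hIND : S_IND) (hLOC : S_LOC) (hSHIFT : S_SHIFT)
    (hMEAS : S_MEAS) (hCONT : S_CONT) (hZON : S_ZON) (hSUB : S_SUB)
    (U : Finset (Finset Site)) (hU : IsUpdateFamily U) (hs : Subcritical U) :
    ∃ q : unitInterval, (q : ℝ) = pc U ∧
      ((∃ X ∈ U, (0 : ℝ × ℝ) ∉ convexHull ℝ (real X)) →
        pc U < 1 ∧
        (∃ c : ℝ, 0 < c ∧ ∀ n : ℕ, 1 ≤ n →
          c / n ≤ (Perc q {ω | (0 : Site) ∉ infected U (init ω) n}).toReal) ∧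
        ∫⁻ ω, time U (init ω) ∂(Perc q) = ⊤) ∧
      ((∀ X ∈ U, (0 : ℝ × ℝ) ∈ convexHull ℝ (real X)) →
        pc U = 1 ∧ ∫⁻ ω, time U (init ω) ∂(Perc q) = 0) := by
  have hne := hSUB U hs
  exact ⟨⟨pc U, pc_mem U⟩, rfl,
    fun hX => main_good hPATH hIND hLOC hSHIFT hMEAS hCONT U hne hX,
    fun hX => main_bad hZON U hU.2 hX⟩

end Pool.Agent.W829.UB
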